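import Mathlib

set_option autoImplicit false

open Set Filter Topology Order
open scoped Ordinal Cardinal

namespace Pool.Agent.Results.MP_23516e_gt.NotEmbeddable

/-- `X` is cleavable over `Y`: for every `A ⊆ X` there is a continuous `f : X → Y` with
`f ⁻¹ (f A) = A`. -/
def CleavableOver (X Y : Type 1) [TopologicalSpace X] [TopologicalSpace Y] : Prop :=
  ∀ A : Set X, ∃ f : X → Y, Continuous f ∧ f ⁻¹' (f '' A) = A

/-- The space of ordinals up to and including `ω₁`. -/
abbrev W : Type 1 := Iic (ω₁ : Ordinal.{0})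

/-- One point compactification of countably many copies of `W`. -/
abbrev Piece : Type 1 := OnePoint (ℕ × W)

/-- Three disjoint copies of `Piece`. -/
abbrev Sp : Type 1 := Fin 3 × Piece

/-- The top point of `W`. -/
noncomputable def top : W := ⟨ω₁, mem_Iic.mpr le_rfl⟩

theorem compactSpace_W : CompactSpace W := by
  refine isCompact_iff_compactSpace.mp ?_
  have h : (Iic (ω₁ : Ordinal.{0})) = Icc 0 ω₁ := by
    ext x
    simp
  rw [h]
  exact isCompact_Icc

theorem fin3 : ∀ a b j j' : Fin 3, a ≠ b → j ≠ a → j ≠ b → j' ≠ a → j' ≠ b → j = j' := by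
  decide

/-- Half of the length. -/
noncomputable def N : Ordinal.{0} := ω₁ * ω

theorem cg_of_lt {β α : Ordinal.{0}} (h1 : β < α) (h2 : α < β + ω₁) :
    (𝓝 α).IsCountablyGenerated := by
  have hb := SuccOrder.hasBasis_nhds_Ioc_of_exists_lt ⟨β, h1⟩
  set r := α - β with hr
  have hαr : β + r = α := Ordinal.add_sub_cancel_of_le h1.le
  have hr1 : r < ω₁ := by
    rw [← hαr] at h2
    exact (add_lt_add_iff_left β).mp h2
  have hcount : (Iio r).Countable := by
    rw [← Cardinal.le_aleph0_iff_set_countable, Cardinal.mk_Iio_ordinal]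
    rw [← Cardinal.lift_aleph0.{1, 0}, Cardinal.lift_le]
    rw [← Cardinal.ord_aleph, Cardinal.lt_ord, ← Cardinal.succ_aleph0, Order.lt_succ_iff] at hr1
    exact hr1
  have hS : {γ | β ≤ γ ∧ γ < α}.Countable := by
    refine (hcount.image (fun s => β + s)).mono ?_
    rintro γ ⟨hγ1, hγ2⟩
    refine ⟨γ - β, ?_, Ordinal.add_sub_cancel_of_le hγ1⟩
    show γ - β < r
    rw [← hαr, ← Ordinal.add_sub_cancel_of_le hγ1] at hγ2
    exact (add_lt_add_iff_left β).mp hγ2
  have hb2 : (𝓝 α).HasBasis (fun γ => β ≤ γ ∧ γ < α) (fun γ => Ioc γ α) := by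
    refine hb.to_hasBasis ?_ ?_
    · intro γ hγ
      refine ⟨max β γ, ⟨le_max_left _ _, max_lt h1 hγ⟩, ?_⟩
      exact Ioc_subset_Ioc_left (le_max_right _ _)
    · intro γ hγ
      exact ⟨γ, hγ.2, subset_rfl⟩
  exact HasCountableBasis.isCountablyGenerated ⟨hb2, hS⟩

theorem not_cg_top : ¬ (𝓝 top).IsCountablyGenerated := by
  intro h
  obtain ⟨U, hU⟩ := (𝓝 top).exists_antitone_basis
  have hpos : (0 : Ordinal.{0}) < ω₁ := Ordinal.omega_pos 1
  have hb := SuccOrder.hasBasis_nhds_Ioc_of_exists_lt (a := (ω₁ : Ordinal.{0})) ⟨0, hpos⟩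
  have h1 : ∀ k, ∃ γ : Ordinal.{0}, γ < ω₁ ∧ ∀ y : W, γ < y.1 → y ∈ U k := by
    intro k
    have h2 : U k ∈ 𝓝 top := hU.mem k
    obtain ⟨V, hV, hVU⟩ := mem_nhds_subtype _ _ _ |>.mp h2
    obtain ⟨γ, hγ, hγV⟩ := hb.mem_iff.mp hV
    exact ⟨γ, hγ, fun y hy => hVU (hγV ⟨hy, y.2⟩)⟩
  choose γ hγ hγU using h1
  have h3 : (⨆ k, γ k) < ω₁ := Ordinal.iSup_lt_omega_one hγ
  have h4 : (⨆ k, γ k) + 1 < ω₁ := (Cardinal.isSuccLimit_omega 1).add_one_lt h3
  set δ := (⨆ k, γ k) + 1 with hδ
  have h5 : {y : W | δ < y.1} ∈ 𝓝 top :=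
    (isOpen_Ioi.preimage continuous_subtype_val).mem_nhds h4
  obtain ⟨k, hk⟩ := hU.mem_iff.mp h5
  have h6 : (⟨δ, mem_Iic.mpr h4.le⟩ : W) ∈ U k := by
    apply hγU
    show γ k < δ
    exact (Ordinal.le_iSup γ k).trans_lt (lt_add_one _)
  exact lt_irrefl δ (hk h6)

/-- For a set of ordinals that are limits of points of uncountable character. -/
theorem add_le_of_limit {τ β : Ordinal.{0}}
    (hτ : ∀ γ < τ, ∃ q, γ < q ∧ q < τ ∧ ¬ (𝓝 q).IsCountablyGenerated) (hβ : β < τ) :
    β + N ≤ τ := by
  have h1 : ∀ m : ℕ, β + ω₁ * (m : Ordinal.{0}) < τ := by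
    intro m
    induction m with
    | zero => simpa using hβ
    | succ m ih =>
      obtain ⟨q, hq1, hq2, hq3⟩ := hτ _ ih
      have h2 : β + ω₁ * (m : Ordinal.{0}) + ω₁ ≤ q := by
        by_contra hlt
        exact hq3 (cg_of_lt hq1 (not_le.mp hlt))
      push_cast
      rw [mul_add, mul_one, ← add_assoc]
      exact h2.trans_lt hq2
  by_contra hlt
  have hlt' : τ < β + N := not_le.mp hlt
  rw [← Ordinal.add_sub_cancel_of_le hβ.le] at hlt'
  have h2 : τ - β < ω₁ * ω := (add_lt_add_iff_left β).mp hlt'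
  obtain ⟨c, hc, hc2⟩ := (Ordinal.lt_mul_iff_of_isSuccLimit Ordinal.isSuccLimit_omega0).mp h2
  obtain ⟨m, rfl⟩ := Ordinal.lt_omega0.mp hc
  have h3 := h1 m
  have h4 : τ < β + ω₁ * (m : Ordinal.{0}) := by
    rw [← Ordinal.add_sub_cancel_of_le hβ.le]
    exact (add_lt_add_iff_left β).mpr hc2
  exact lt_irrefl _ (h3.trans h4)

theorem tendsto_top (j : Fin 3) :
    Tendsto (fun n : ℕ => ((j, ((n, top) : ℕ × W)) : Sp)) atTop (𝓝 (j, OnePoint.infty)) := by
  have h1 : Tendsto (fun n : ℕ => ((n, top) : ℕ × W)) atTop (coclosedCompact (ℕ × W)) := by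
    rw [hasBasis_coclosedCompact.tendsto_right_iff]
    rintro t ⟨-, ht⟩
    have h2 : (Prod.fst '' t).Finite := (ht.image continuous_fst).finite_of_discrete
    obtain ⟨b, hb⟩ := h2.bddAbove
    filter_upwards [eventually_gt_atTop b] with n hn hmem
    exact absurd (hb ⟨_, hmem, rfl⟩) (not_le.mpr hn)
  have h3 := OnePoint.tendsto_coe_infty.comp h1
  exact (tendsto_const_nhds.prodMk_nhds h3)

theorem limit_of_embedding {g : Sp → Ordinal.{0}} (hg : IsEmbedding g) (j : Fin 3) :
    (∀ γ < g (j, OnePoint.infty), ∃ q, γ < q ∧ q < g (j, OnePoint.infty) ∧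
      ¬ (𝓝 q).IsCountablyGenerated) ∧ 0 < g (j, OnePoint.infty) := by
  set τ := g (j, OnePoint.infty) with hτ
  have hq : ∀ n : ℕ, ¬ (𝓝 (g (j, ((n, top) : ℕ × W)))).IsCountablyGenerated := by
    intro n hcg
    have hi : IsEmbedding (fun y : W => ((j, ((n, y) : ℕ × W)) : Sp)) :=
      (isEmbedding_prodMkRight j).comp
        (OnePoint.isOpenEmbedding_coe.isEmbedding.comp (isEmbedding_prodMkRight n))
    have h1 := (hg.comp hi).isInducing.nhds_eq_comap top
    apply not_cg_top
    rw [h1]
    have : (𝓝 ((g ∘ fun y : W => ((j, ((n, y) : ℕ × W)) : Sp)) top)).IsCountablyGenerated := hcg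
    infer_instance
  have hlim : Tendsto (fun n : ℕ => g (j, ((n, top) : ℕ × W))) atTop (𝓝 τ) :=
    (hg.continuous.tendsto _).comp (tendsto_top j)
  have hle : ∀ᶠ n : ℕ in atTop, g (j, ((n, top) : ℕ × W)) < τ := by
    have h1 : ∀ᶠ n : ℕ in atTop, g (j, ((n, top) : ℕ × W)) < succ τ :=
      hlim.eventually (isOpen_Iio.mem_nhds (lt_succ τ))
    filter_upwards [h1] with n hn
    refine lt_of_le_of_ne (lt_succ_iff.mp hn) ?_
    intro heq
    have h2 := hg.injective heq
    have h3 := congrArg Prod.snd h2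
    exact OnePoint.coe_ne_infty _ h3
  constructor
  · intro γ hγ
    obtain ⟨n, hn1, hn2⟩ := ((hlim.eventually (isOpen_Ioi.mem_nhds hγ)).and hle).exists
    exact ⟨_, hn1, hn2, hq n⟩
  · obtain ⟨n, hn⟩ := hle.exists
    exact lt_of_le_of_lt (zero_le) hn

/-- Position inside the first half: block `m`, point `y`. -/
noncomputable def pos (a : ℕ × W) : Ordinal.{0} := ω₁ * (a.1 : Ordinal.{0}) + (1 + (a.2 : Ordinal.{0}))

theorem one_add_omega_one : (1 : Ordinal.{0}) + ω₁ = ω₁ :=
  Ordinal.one_add_of_omega0_le (Ordinal.omega0_le_omega 1)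

theorem pos_le (a : ℕ × W) : pos a ≤ ω₁ * ((a.1 + 1 : ℕ) : Ordinal.{0}) := by
  unfold pos
  push_cast
  rw [mul_add, mul_one]
  refine (add_le_add_iff_left _).mpr ?_
  calc (1 : Ordinal.{0}) + (a.2 : Ordinal.{0}) ≤ 1 + ω₁ := (add_le_add_iff_left _).mpr a.2.2
    _ = ω₁ := one_add_omega_one

theorem lt_pos (a : ℕ × W) : ω₁ * (a.1 : Ordinal.{0}) < pos a := by
  unfold pos
  have h : (0 : Ordinal.{0}) < 1 + (a.2 : Ordinal.{0}) := lt_of_lt_of_le zero_lt_one le_self_add
  simpa using (add_lt_add_iff_left (ω₁ * (a.1 : Ordinal.{0}))).mpr h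

theorem omega_one_pos : (0 : Ordinal.{0}) < ω₁ := Ordinal.omega_pos 1

theorem block_lt (m : ℕ) : ω₁ * (m : Ordinal.{0}) < N :=
  (mul_lt_mul_iff_right₀ omega_one_pos).mpr (Ordinal.natCast_lt_omega0 m)

theorem pos_lt (a : ℕ × W) : pos a < N := (pos_le a).trans_lt (block_lt _)

theorem pos_lt_pos {a b : ℕ × W} (h : a.1 < b.1) : pos a < pos b := by
  refine (pos_le a).trans_lt (lt_of_le_of_lt ?_ (lt_pos b))
  refine (mul_le_mul_iff_right₀ omega_one_pos).mpr ?_
  exact_mod_cast h

theorem pos_injective : Function.Injective pos := by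
  rintro ⟨m, y⟩ ⟨m', y'⟩ h
  rcases lt_trichotomy m m' with h1 | h1 | h1
  · exact absurd h (ne_of_lt (pos_lt_pos (a := (m, y)) (b := (m', y')) h1))
  · subst h1
    have h2 : ω₁ * (m : Ordinal.{0}) + (1 + (y : Ordinal.{0})) =
        ω₁ * (m : Ordinal.{0}) + (1 + (y' : Ordinal.{0})) := h
    have h3 := add_left_cancel (add_left_cancel h2)
    rw [Subtype.ext h3]
  · exact absurd h.symm (ne_of_lt (pos_lt_pos (a := (m', y')) (b := (m, y)) h1))

/-- The map of a piece to the ordinals. -/
noncomputable def G (δ : Ordinal.{0}) (k e : ℕ) (x : Piece) : Ordinal.{0} :=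
  x.elim (δ + N) (fun a => δ + pos (k * a.1 + e, a.2))

theorem G_infty (δ : Ordinal.{0}) (k e : ℕ) : G δ k e OnePoint.infty = δ + N := rfl
theorem G_coe (δ : Ordinal.{0}) (k e : ℕ) (a : ℕ × W) :
    G δ k e (a : Piece) = δ + pos (k * a.1 + e, a.2) := rfl

theorem G_le (δ : Ordinal.{0}) (k e : ℕ) (x : Piece) : G δ k e x ≤ δ + N := by
  induction x using OnePoint.rec with
  | infty => exact le_rfl
  | coe a =>
    rw [G_coe]
    exact (add_le_add_iff_left _).mpr (pos_lt _).le

theorem continuous_G (δ : Ordinal.{0}) {k : ℕ} (hk : 0 < k) (e : ℕ) : Continuous (G δ k e) := by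
  rw [continuous_iff_continuousAt]
  intro x
  induction x using OnePoint.rec with
  | infty =>
    rw [OnePoint.continuousAt_infty]
    intro s hs
    have hpos : (0 : Ordinal.{0}) < δ + N :=
      lt_of_lt_of_le (lt_of_le_of_lt (zero_le) (block_lt 0)) le_add_self
    have hb := SuccOrder.hasBasis_nhds_Ioc_of_exists_lt (a := δ + N) ⟨0, hpos⟩
    obtain ⟨γ, hγ, hγs⟩ := hb.mem_iff.mp hs
    -- a block index beyond `γ`
    have hm : ∃ m : ℕ, γ ≤ δ + ω₁ * (m : Ordinal.{0}) := by
      rcases lt_or_ge γ δ with h | h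
      · exact ⟨0, by simpa using h.le⟩
      · rw [← Ordinal.add_sub_cancel_of_le h] at hγ
        have h2 : γ - δ < ω₁ * ω := (add_lt_add_iff_left δ).mp hγ
        obtain ⟨c, hc, hc2⟩ :=
          (Ordinal.lt_mul_iff_of_isSuccLimit Ordinal.isSuccLimit_omega0).mp h2
        obtain ⟨m, rfl⟩ := Ordinal.lt_omega0.mp hc
        refine ⟨m, ?_⟩
        rw [← Ordinal.add_sub_cancel_of_le h]
        exact (add_le_add_iff_left δ).mpr hc2.le
    obtain ⟨m, hm⟩ := hm
    refine ⟨(Iio m : Set ℕ) ×ˢ (univ : Set W), ?_, ?_, ?_⟩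
    · exact (isClosed_discrete _).prod isClosed_univ
    · have : CompactSpace W := compactSpace_W
      exact (finite_Iio m).isCompact.prod isCompact_univ
    · intro a ha
      have h1 : m ≤ a.1 := by
        by_contra hlt
        exact ha ⟨not_le.mp hlt, mem_univ _⟩
      apply hγs
      show G δ k e (a : Piece) ∈ Ioc γ (δ + N)
      rw [G_coe]
      refine ⟨?_, (add_le_add_iff_left _).mpr (pos_lt _).le⟩
      refine hm.trans_lt ((add_lt_add_iff_left δ).mpr ?_)
      refine lt_of_le_of_lt ?_ (lt_pos _)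
      refine (mul_le_mul_iff_right₀ omega_one_pos).mpr ?_
      have h2 : m ≤ k * a.1 + e := by nlinarith
      exact_mod_cast h2
  | coe a =>
    rw [OnePoint.continuousAt_coe]
    apply Continuous.continuousAt
    show Continuous (fun a : ℕ × W => δ + pos (k * a.1 + e, a.2))
    rw [continuous_prod_of_discrete_left]
    intro n
    show Continuous (fun y : W => δ + (ω₁ * ((k * n + e : ℕ) : Ordinal.{0}) +
      (1 + (y : Ordinal.{0}))))
    exact (Ordinal.isNormal_add_right δ).continuous.comp
      ((Ordinal.isNormal_add_right _).continuous.comp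
        ((Ordinal.isNormal_add_right 1).continuous.comp continuous_subtype_val))

theorem N_pos : (0 : Ordinal.{0}) < N := lt_of_le_of_lt (zero_le) (block_lt 0)

/-- The length of the target: `ω₁ · ω · 2 + 1`. -/
noncomputable def lam : Ordinal.{0} := ω₁ * ω * 2 + 1

theorem lam_eq : lam = N + N + 1 := by
  unfold lam N
  rw [Ordinal.mul_two]

theorem cleavable : CleavableOver Sp (Iio lam) := by
  classical
  intro A
  obtain ⟨a, b, hab, hcl⟩ := Fintype.exists_ne_map_eq_of_card_lt
    (fun j : Fin 3 => decide (((j, OnePoint.infty) : Sp) ∈ A)) (by simp)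
  have hcl' : ((a, OnePoint.infty) : Sp) ∈ A ↔ ((b, OnePoint.infty) : Sp) ∈ A := by
    simpa using hcl
  set F : Fin 3 → Piece → Ordinal.{0} := fun j =>
    if j = a then G 0 2 0 else if j = b then G 0 2 1 else G N 1 0 with hF
  have hFle : ∀ j x, F j x < lam := by
    intro j x
    rw [lam_eq]
    refine lt_of_le_of_lt ?_ (lt_add_one _)
    simp only [hF]
    split_ifs
    · exact (G_le 0 2 0 x).trans (by rw [zero_add]; exact le_self_add)
    · exact (G_le 0 2 1 x).trans (by rw [zero_add]; exact le_self_add)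
    · exact G_le N 1 0 x
  have hFc : ∀ j, Continuous (F j) := by
    intro j
    simp only [hF]
    split_ifs
    · exact continuous_G 0 two_pos 0
    · exact continuous_G 0 two_pos 1
    · exact continuous_G N one_pos 0
  -- failure of injectivity only at the two tops
  have key : ∀ j x j' x', F j x = F j' x' →
      (j = j' ∧ x = x') ∨ (x = OnePoint.infty ∧ x' = OnePoint.infty ∧ (j = a ∨ j = b) ∧
        (j' = a ∨ j' = b)) := by
    -- the ordinals of the pieces
    have hlow : ∀ (e : ℕ) (x : Piece), G 0 2 e x ≤ N := fun e x => by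
      have := G_le 0 2 e x
      rwa [zero_add] at this
    have hhigh : ∀ x : Piece, N < G N 1 0 x := by
      intro x
      induction x using OnePoint.rec with
      | infty =>
        rw [G_infty]
        simpa using (add_lt_add_iff_left N).mpr N_pos
      | coe c =>
        rw [G_coe]
        have h1 : (0 : Ordinal.{0}) < pos (1 * c.1 + 0, c.2) :=
          lt_of_le_of_lt (zero_le) (lt_pos _)
        simpa using (add_lt_add_iff_left N).mpr h1
    have hinjG : ∀ (δ : Ordinal.{0}) (k e e' : ℕ) (x x' : Piece), 0 < k → e < k → e' < k →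
        G δ k e x = G δ k e' x' → (e = e' ∧ x = x') ∨ (x = OnePoint.infty ∧ x' = OnePoint.infty) := by
      intro δ k e e' x x' hk he he' h
      induction x using OnePoint.rec with
      | infty =>
        induction x' using OnePoint.rec with
        | infty => exact Or.inr ⟨rfl, rfl⟩
        | coe c' =>
          rw [G_infty, G_coe] at h
          exact absurd (add_left_cancel h) (pos_lt _).ne'
      | coe c =>
        induction x' using OnePoint.rec with
        | infty =>
          rw [G_infty, G_coe] at h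
          exact absurd (add_left_cancel h) (pos_lt _).ne
        | coe c' =>
          rw [G_coe, G_coe] at h
          have h1 := pos_injective (add_left_cancel h)
          have h2 : k * c.1 + e = k * c'.1 + e' := (Prod.ext_iff.mp h1).1
          have h3 : c.2 = c'.2 := (Prod.ext_iff.mp h1).2
          have h4 : e = e' := by
            have h5 := congrArg (· % k) h2
            simpa [Nat.mul_add_mod, Nat.mod_eq_of_lt he, Nat.mod_eq_of_lt he'] using h5
          have h6 : c.1 = c'.1 := by
            subst h4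
            have h7 : k * c.1 = k * c'.1 := by omega
            exact Nat.eq_of_mul_eq_mul_left hk h7
          left
          exact ⟨h4, by rw [Prod.ext h6 h3]⟩
    intro j x j' x' h
    simp only [hF] at h
    by_cases hja : j = a
    · rw [if_pos hja] at h
      by_cases hja' : j' = a
      · rw [if_pos hja'] at h
        rcases hinjG 0 2 0 0 x x' two_pos two_pos two_pos h with h1 | h1
        · exact Or.inl ⟨hja.trans hja'.symm, h1.2⟩
        · exact Or.inr ⟨h1.1, h1.2, Or.inl hja, Or.inl hja'⟩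
      · rw [if_neg hja'] at h
        by_cases hjb' : j' = b
        · rw [if_pos hjb'] at h
          rcases hinjG 0 2 0 1 x x' two_pos two_pos one_lt_two h with h1 | h1
          · exact absurd h1.1 (by norm_num)
          · exact Or.inr ⟨h1.1, h1.2, Or.inl hja, Or.inr hjb'⟩
        · rw [if_neg hjb'] at h
          exact absurd h (((hlow 0 x).trans_lt (hhigh x')).ne)
    · rw [if_neg hja] at h
      by_cases hjb : j = b
      · rw [if_pos hjb] at h
        by_cases hja' : j' = a
        · rw [if_pos hja'] at h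
          rcases hinjG 0 2 1 0 x x' two_pos one_lt_two two_pos h with h1 | h1
          · exact absurd h1.1 (by norm_num)
          · exact Or.inr ⟨h1.1, h1.2, Or.inr hjb, Or.inl hja'⟩
        · rw [if_neg hja'] at h
          by_cases hjb' : j' = b
          · rw [if_pos hjb'] at h
            rcases hinjG 0 2 1 1 x x' two_pos one_lt_two one_lt_two h with h1 | h1
            · exact Or.inl ⟨hjb.trans hjb'.symm, h1.2⟩
            · exact Or.inr ⟨h1.1, h1.2, Or.inr hjb, Or.inr hjb'⟩
          · rw [if_neg hjb'] at h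
            exact absurd h (((hlow 1 x).trans_lt (hhigh x')).ne)
      · rw [if_neg hjb] at h
        by_cases hja' : j' = a
        · rw [if_pos hja'] at h
          exact absurd h (((hlow 0 x').trans_lt (hhigh x)).ne')
        · rw [if_neg hja'] at h
          by_cases hjb' : j' = b
          · rw [if_pos hjb'] at h
            exact absurd h (((hlow 1 x').trans_lt (hhigh x)).ne')
          · rw [if_neg hjb'] at h
            have hjj : j = j' := fin3 a b j j' hab hja hjb hja' hjb'
            rcases hinjG N 1 0 0 x x' one_pos one_pos one_pos h with h1 | h1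
            · exact Or.inl ⟨hjj, h1.2⟩
            · exact Or.inl ⟨hjj, h1.1.trans h1.2.symm⟩
  refine ⟨fun p => ⟨F p.1 p.2, hFle p.1 p.2⟩, ?_, ?_⟩
  · refine Continuous.subtype_mk ?_ _
    rw [continuous_prod_of_discrete_left]
    exact hFc
  · refine Subset.antisymm ?_ (subset_preimage_image _ _)
    rintro ⟨j, x⟩ ⟨⟨j', x'⟩, hA, hEq⟩
    have h1 : F j' x' = F j x := congrArg Subtype.val hEq
    rcases key _ _ _ _ h1 with ⟨rfl, rfl⟩ | ⟨rfl, rfl, h2, h3⟩
    · exact hA
    · rcases h2 with rfl | rfl <;> rcases h3 with rfl | rfl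
      · exact hA
      · exact hcl'.mp hA
      · exact hcl'.mpr hA
      · exact hA

/-- **Negative answer to Q1**: for `λ = ω₁ · ω · 2 + 1` there is an infinite compactum cleavable
over `λ` that does not embed into `λ`. -/
theorem result : ∃ lam : Ordinal.{0}, ω₁ < lam ∧ ∃ (X : Type 1) (_ : TopologicalSpace X),
    CompactSpace X ∧ T2Space X ∧ Infinite X ∧ CleavableOver X (Iio lam) ∧
    ¬ ∃ f : X → Iio lam, IsEmbedding f := by
  have hcW : CompactSpace W := compactSpace_W
  refine ⟨lam, ?_, Sp, inferInstance, inferInstance, inferInstance, ?_, cleavable, ?_⟩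
  · rw [lam_eq]
    have h1 : ω₁ * ((1 : ℕ) : Ordinal.{0}) < N := block_lt 1
    have h2 : (ω₁ : Ordinal.{0}) < N := by simpa using h1
    exact h2.trans_le (le_self_add.trans le_self_add)
  · refine Infinite.of_injective (fun n : ℕ => (((0 : Fin 3), ((n, top) : ℕ × W)) : Sp)) ?_
    intro n m h
    have h1 := OnePoint.coe_injective (congrArg Prod.snd h)
    exact congrArg Prod.fst h1
  · rintro ⟨f, hf⟩
    have hg : IsEmbedding (fun p : Sp => (f p : Ordinal.{0})) := IsEmbedding.subtypeVal.comp hf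
    set g : Sp → Ordinal.{0} := fun p => (f p : Ordinal.{0}) with hgdef
    have hlt : ∀ p, g p ≤ N + N := by
      intro p
      have h1 : g p < lam := (f p).2
      rw [lam_eq] at h1
      exact Order.lt_add_one_iff.mp h1
    classical
    set s : Finset Ordinal.{0} := Finset.univ.image (fun j : Fin 3 => g (j, OnePoint.infty))
      with hs
    have hcard : s.card = 3 := by
      rw [hs, Finset.card_image_of_injective]
      · simp
      · intro i j hij
        exact congrArg Prod.fst (hg.injective hij)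
    have hmem : ∀ i : Fin 3, ∃ j : Fin 3, g (j, OnePoint.infty) = s.orderEmbOfFin hcard i := by
      intro i
      have h1 := Finset.orderEmbOfFin_mem s hcard i
      obtain ⟨j, -, hj⟩ := Finset.mem_image.mp h1
      exact ⟨j, hj⟩
    obtain ⟨j0, h0⟩ := hmem 0
    obtain ⟨j1, h1⟩ := hmem 1
    obtain ⟨j2, h2⟩ := hmem 2
    have l01 : g (j0, OnePoint.infty) < g (j1, OnePoint.infty) := by
      rw [h0, h1]
      exact (s.orderEmbOfFin hcard).strictMono (by decide)
    have l12 : g (j1, OnePoint.infty) < g (j2, OnePoint.infty) := by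
      rw [h1, h2]
      exact (s.orderEmbOfFin hcard).strictMono (by decide)
    have e0 := limit_of_embedding hg j0
    have e1 := limit_of_embedding hg j1
    have e2 := limit_of_embedding hg j2
    have k0 : 0 + N ≤ g (j0, OnePoint.infty) := add_le_of_limit e0.1 e0.2
    have k1 := add_le_of_limit e1.1 l01
    have k2 := add_le_of_limit e2.1 l12
    rw [zero_add] at k0
    have k3 : N + N + N ≤ g (j2, OnePoint.infty) :=
      (add_le_add_left ((add_le_add_left k0 N).trans k1) N).trans k2
    have k4 : N + N < N + N + N := by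
      simpa using (add_lt_add_iff_left (N + N)).mpr N_pos
    exact absurd (k4.trans_le (k3.trans (hlt _))) (lt_irrefl _)

end Pool.Agent.Results.MP_23516e_gt.NotEmbeddable
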